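import Pool.Agent.H68.QC.Targets
import Pool.Agent.H62.OQ.LWS

/-!
# CH0: a random set contains many elements of a large set
-/

set_option autoImplicit false

namespace Pool.Agent.H91.QC

open Pool.Agent.H68.QC Pool.Agent.H70.OQ Pool.Agent.H70.RK Pool.Agent.H6.NB Finset

/-- CH0. -/
theorem pf_CH0 : T_CH0 := by
  intro X _ _ q S m hq0 hq1 hS
  have hpt : ∀ l : X → Bool, ic ((S.filter fun x => l x = true).card ≤ m) ≤
      2 ^ m * ∏ x, (if x ∈ S then (if l x = true then (1 / 2 : ℝ) else 1) else 1) := by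
    intro l
    have hprod : ∏ x, (if x ∈ S then (if l x = true then (1 / 2 : ℝ) else 1) else 1) =
        (1 / 2) ^ (S.filter fun x => l x = true).card := by
      rw [← prod_filter, filter_mem_eq_inter, univ_inter, ← prod_filter, prod_const]
    rw [hprod]
    by_cases h : (S.filter fun x => l x = true).card ≤ m
    · rw [Pool.Agent.H62.OQ.ic_pos h]
      have h1 : ((1 : ℝ) / 2) ^ m ≤ (1 / 2) ^ (S.filter fun x => l x = true).card :=
        pow_le_pow_of_le_one (by norm_num) (by norm_num) h
      have h2 : (2 : ℝ) ^ m * (1 / 2) ^ m = 1 := by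
        rw [← mul_pow]
        norm_num
      have h3 : (0 : ℝ) ≤ 2 ^ m := by positivity
      calc (1 : ℝ) = 2 ^ m * (1 / 2) ^ m := h2.symm
        _ ≤ _ := mul_le_mul_of_nonneg_left h1 h3
    · rw [Pool.Agent.H62.OQ.ic_neg h]
      positivity
  have hval : ∑ l : X → Bool, lw q l *
      ∏ x, (if x ∈ S then (if l x = true then (1 / 2 : ℝ) else 1) else 1) = (1 - q / 2) ^ S.card := by
    rw [Pool.Agent.H62.OQ.lw_prod q (fun (x : X) (b : Bool) =>
      if x ∈ S then (if b = true then (1 / 2 : ℝ) else 1) else 1)]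
    have : ∀ x : X, (q * (if x ∈ S then (if (true : Bool) = true then (1 / 2 : ℝ) else 1) else 1) +
        (1 - q) * (if x ∈ S then (if (false : Bool) = true then (1 / 2 : ℝ) else 1) else 1)) =
        if x ∈ S then 1 - q / 2 else 1 := by
      intro x
      by_cases hx : x ∈ S
      · simp only [if_pos hx, if_true, Bool.false_eq_true, if_false]
        ring
      · simp only [if_neg hx]
        ring
    rw [prod_congr rfl fun x _ => this x, ← prod_filter, filter_mem_eq_inter, univ_inter,
      prod_const]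
  have hsum : ∑ l : X → Bool, lw q l * ic ((S.filter fun x => l x = true).card ≤ m) ≤
      2 ^ m * (1 - q / 2) ^ S.card := by
    rw [← hval, mul_sum]
    refine sum_le_sum fun l _ => ?_
    calc lw q l * ic ((S.filter fun x => l x = true).card ≤ m)
        ≤ lw q l * (2 ^ m * ∏ x, (if x ∈ S then (if l x = true then (1 / 2 : ℝ) else 1) else 1)) :=
          mul_le_mul_of_nonneg_left (hpt l) (Pool.Agent.H62.OQ.lw_nonneg q hq0 hq1 l)
      _ = _ := by ring
  have hexp : (1 - q / 2) ^ S.card ≤ Real.exp (-((m : ℝ) + 2)) := by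
    have h1 : 1 - q / 2 ≤ Real.exp (-(q / 2)) := by
      have := Real.add_one_le_exp (-(q / 2))
      linarith
    calc (1 - q / 2) ^ S.card ≤ (Real.exp (-(q / 2))) ^ S.card :=
          pow_le_pow_left₀ (by linarith) h1 _
      _ = Real.exp (S.card * (-(q / 2))) := (Real.exp_nat_mul _ _).symm
      _ ≤ Real.exp (-((m : ℝ) + 2)) := by
          refine Real.exp_le_exp.2 ?_
          linarith
  have h2e : (2 : ℝ) ≤ Real.exp 1 := by
    have := Real.add_one_le_exp (1 : ℝ)
    linarith
  have hfin : Real.exp (-((m : ℝ) + 2)) ≤ (1 / 2) ^ (m + 2) := by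
    have h3 : Real.exp (-((m : ℝ) + 2)) = (Real.exp (-1)) ^ (m + 2) := by
      rw [← Real.exp_nat_mul]
      push_cast
      ring_nf
    rw [h3]
    refine pow_le_pow_left₀ (Real.exp_pos _).le ?_ _
    rw [Real.exp_neg, ← one_div]
    exact one_div_le_one_div_of_le (by norm_num) h2e
  have h4 : (2 : ℝ) ^ m * (1 / 2) ^ (m + 2) = 1 / 4 := by
    rw [pow_add, ← mul_assoc, ← mul_pow]
    norm_num
  calc ∑ l : X → Bool, lw q l * ic ((S.filter fun x => l x = true).card ≤ m)
      ≤ 2 ^ m * (1 - q / 2) ^ S.card := hsum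
    _ ≤ 2 ^ m * (1 / 2) ^ (m + 2) :=
        mul_le_mul_of_nonneg_left (hexp.trans hfin) (by positivity)
    _ = 1 / 4 := h4

end Pool.Agent.H91.QC
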