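import Pool.Agent.H68.QC.Targets
import Pool.Agent.H62.OQ.LWS

/-!
# SYL: choosing first the live children in `L` and then a hidden child among them
-/

set_option autoImplicit false

namespace Pool.Agent.H91.QC

open Pool.Agent.H68.QC Pool.Agent.H70.OQ Pool.Agent.H70.RK Pool.Agent.H6.NB Finset

noncomputable section

/-- The chosen subset of `S` of a single node. -/
def LS {Z : Type} [DecidableEq Z] (S : Finset Z) (m : Z → Bool) : Finset Z :=
  if (S.filter fun z => m z = true) = ∅ then S else S.filter fun z => m z = true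

lemma LS_nonempty {Z : Type} [DecidableEq Z] (S : Finset Z) (hS : S.Nonempty) (m : Z → Bool) :
    (LS S m).Nonempty := by
  unfold LS
  split_ifs with h
  · exact hS
  · exact nonempty_iff_ne_empty.2 h

lemma LS_sub {Z : Type} [DecidableEq Z] (S : Finset Z) (m : Z → Bool) : LS S m ⊆ S := by
  unfold LS
  split_ifs with h
  · exact fun _ h => h
  · exact filter_subset _ _

/-- The weight of `z` for a single node. -/
def pS {Z : Type} [DecidableEq Z] (S : Finset Z) (m : Z → Bool) (z : Z) : ℝ :=
  if z ∈ LS S m then 1 / ((LS S m).card : ℝ) else 0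

lemma LS_comp {Z : Type} [DecidableEq Z] (S : Finset Z) (m : Z → Bool) (σ : Equiv.Perm Z)
    (hσ : ∀ z, σ z ∈ S ↔ z ∈ S) :
    LS S (fun z => m (σ z)) = (LS S m).map σ.symm.toEmbedding := by
  have h : (S.filter fun z => m (σ z) = true) =
      (S.filter fun z => m z = true).map σ.symm.toEmbedding := by
    ext z
    rw [mem_map_equiv, Equiv.symm_symm, mem_filter, mem_filter, hσ z]
  unfold LS
  rw [h]
  by_cases h0 : (S.filter fun z => m z = true) = ∅
  · rw [if_pos h0, if_pos (by rw [h0, map_empty])]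
    ext z
    rw [mem_map_equiv, Equiv.symm_symm, hσ z]
  · rw [if_neg h0, if_neg (by rwa [map_eq_empty])]

lemma pS_comp {Z : Type} [DecidableEq Z] (S : Finset Z) (m : Z → Bool) (σ : Equiv.Perm Z)
    (hσ : ∀ z, σ z ∈ S ↔ z ∈ S) (z : Z) :
    pS S (fun z => m (σ z)) z = pS S m (σ z) := by
  unfold pS
  rw [LS_comp S m σ hσ, card_map]
  have : (z ∈ (LS S m).map σ.symm.toEmbedding) ↔ σ z ∈ LS S m := by
    rw [mem_map_equiv, Equiv.symm_symm]
  simp only [this]

lemma pS_sum {Z : Type} [DecidableEq Z] (S : Finset Z) (hS : S.Nonempty) (m : Z → Bool) :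
    ∑ z ∈ S, pS S m z = 1 := by
  unfold pS
  rw [← sum_filter, filter_mem_eq_inter, inter_eq_right.2 (LS_sub S m), sum_const, nsmul_eq_mul]
  have : ((LS S m).card : ℝ) ≠ 0 := by
    have := (LS_nonempty S hS m).card_pos
    positivity
  field_simp

lemma cS_eq {Z : Type} [Fintype Z] [DecidableEq Z] (q : ℝ) (S : Finset Z) (hS : S.Nonempty)
    (z : Z) :
    ∑ m : Z → Bool, lw q m * pS S m z = if z ∈ S then 1 / (S.card : ℝ) else 0 := by
  by_cases hz : z ∈ S
  · rw [if_pos hz]
    have hsw : ∀ z0 ∈ S, ∑ m : Z → Bool, lw q m * pS S m z0 = ∑ m : Z → Bool, lw q m * pS S m z := by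
      intro z0 hz0
      have hσ : ∀ w, Equiv.swap z0 z w ∈ S ↔ w ∈ S := by
        intro w
        rw [Equiv.swap_apply_def]
        split_ifs with h1 h2
        · rw [h1]
          exact ⟨fun _ => hz0, fun _ => hz⟩
        · rw [h2]
          exact ⟨fun _ => hz, fun _ => hz0⟩
        · exact Iff.rfl
      rw [← Equiv.sum_comp (Equiv.arrowCongr (Equiv.swap z0 z) (Equiv.refl Bool))
        (fun m => lw q m * pS S m z0)]
      refine sum_congr rfl fun m _ => ?_
      have e : (Equiv.arrowCongr (Equiv.swap z0 z) (Equiv.refl Bool)) m =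
          fun w => m (Equiv.swap z0 z w) := by
        funext w
        simp [Equiv.arrowCongr]
      rw [e, Pool.Agent.H62.OQ.lw_comp, pS_comp S m _ hσ, Equiv.swap_apply_left]
    have htot : ∑ z0 ∈ S, ∑ m : Z → Bool, lw q m * pS S m z0 = 1 := by
      rw [sum_comm]
      simp only [← mul_sum, pS_sum S hS, mul_one]
      exact Pool.Agent.H62.OQ.lws Z q
    have hcard : (S.card : ℝ) ≠ 0 := by
      have := hS.card_pos
      positivity
    rw [eq_div_iff hcard]
    rw [sum_congr rfl hsw, sum_const, nsmul_eq_mul] at htot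
    linarith
  · rw [if_neg hz]
    refine sum_eq_zero fun m _ => ?_
    unfold pS
    rw [if_neg fun h => hz (LS_sub S m h), mul_zero]

/-- SYL. -/
theorem pf_SYL : T_SYL := by
  intro A Z _ _ _ _ q L F hL
  have key : ∀ h : A → Z, ∑ l : A × Z → Bool, lw q l * uw (LofL L l) h = uw L h := by
    intro h
    have e1 : ∀ l : A × Z → Bool, lw q l * uw (LofL L l) h =
        ∏ a, (lw q (fun z => l (a, z)) * pS (L a) (fun z => l (a, z)) (h a)) := by
      intro l
      rw [prod_mul_distrib]
      congr 1
      unfold lw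
      rw [Fintype.prod_prod_type]
    simp only [e1]
    rw [← Equiv.sum_comp (Equiv.curry A Z Bool).symm]
    have e2 : ∀ m : A → Z → Bool, (∏ a, (lw q (fun z => ((Equiv.curry A Z Bool).symm m) (a, z)) *
        pS (L a) (fun z => ((Equiv.curry A Z Bool).symm m) (a, z)) (h a))) =
        ∏ a, (lw q (m a) * pS (L a) (m a) (h a)) := by
      intro m
      rfl
    simp only [e2]
    rw [← Fintype.prod_sum (f := fun (a : A) (m : Z → Bool) => lw q m * pS (L a) m (h a))]
    unfold uw
    exact prod_congr rfl fun a _ => cS_eq q (L a) (hL a) (h a)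
  have : ∑ l : A × Z → Bool, lw q l * ∑ h : A → Z, uw (LofL L l) h * F h =
      ∑ h : A → Z, (∑ l : A × Z → Bool, lw q l * uw (LofL L l) h) * F h := by
    simp only [mul_sum, sum_mul]
    rw [sum_comm]
    refine sum_congr rfl fun h _ => sum_congr rfl fun l _ => ?_
    ring
  rw [this]
  simp only [key]

end

end Pool.Agent.H91.QC
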