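import Mathlib
import Pool.Agent.H95.QC.Targets

/-!
# Quasi-critical 2d directed polymer: module B (the weights `exp (β ω - Λ(β))`)
-/

open MeasureTheory ProbabilityTheory Filter Topology
open scoped ENNReal NNReal BigOperators

namespace Pool.Agent.H91.QC

open Pool.Agent.H95.QC

/-- the weight as a function of the disorder -/
noncomputable def wf (c β : ℝ) (x : ℝ) : ℝ≥0 :=
  (⟨Real.exp (β * x - c), (Real.exp_pos _).le⟩ : ℝ≥0)

lemma wf_coe (c β x : ℝ) : ((wf c β x : ℝ≥0) : ℝ) = Real.exp (β * x - c) := rfl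

lemma wf_meas (c β : ℝ) : Measurable (wf c β) := by
  unfold wf
  apply Measurable.subtype_mk
  fun_prop

lemma wlaw_eq (μ : Measure ℝ) (β : ℝ) : wlaw μ β = μ.map (wf (Lam μ β) β) := rfl

section

variable (μ : Measure ℝ) [IsProbabilityMeasure μ]

lemma pos_int (hexp : ∀ β : ℝ, 0 ≤ β → Integrable (fun x => Real.exp (β * x)) μ) (β : ℝ)
    (hβ : 0 ≤ β) : 0 < ∫ x, Real.exp (β * x) ∂μ := by
  exact integral_exp_pos (hexp β hβ)

lemma one_le_int (h2 : Integrable (fun x : ℝ => x ^ 2) μ) (hm : ∫ x, x ∂μ = 0)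
    (hexp : ∀ β : ℝ, 0 ≤ β → Integrable (fun x => Real.exp (β * x)) μ) (β : ℝ)
    (hβ : 0 ≤ β) : 1 ≤ ∫ x, Real.exp (β * x) ∂μ := by
  have h1 : Integrable (fun x : ℝ => x) μ := by
    have : MemLp (fun x : ℝ => x) 2 μ := by
      rw [memLp_two_iff_integrable_sq]
      · exact h2
      · exact measurable_id.aestronglyMeasurable
    exact this.integrable (by norm_num)
  have hI : Integrable (fun x : ℝ => β * x + 1) μ := (h1.const_mul β).add (integrable_const 1)
  have : ∫ x, (β * x + 1) ∂μ = 1 := by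
    rw [integral_add (h1.const_mul β) (integrable_const 1), integral_const_mul, hm]
    simp
  rw [← this]
  apply integral_mono hI (hexp β hβ)
  intro x
  exact Real.add_one_le_exp _

lemma Lam_nonneg (h2 : Integrable (fun x : ℝ => x ^ 2) μ) (hm : ∫ x, x ∂μ = 0)
    (hexp : ∀ β : ℝ, 0 ≤ β → Integrable (fun x => Real.exp (β * x)) μ) (β : ℝ)
    (hβ : 0 ≤ β) : 0 ≤ Lam μ β :=
  Real.log_nonneg (one_le_int μ h2 hm hexp β hβ)

lemma wt_part (hexp : ∀ β : ℝ, 0 ≤ β → Integrable (fun x => Real.exp (β * x)) μ) (β : ℝ)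
    (hβ : 0 ≤ β) : Wt (wlaw μ β) (sig2 μ β) := by
  have hΛ : Real.exp (Lam μ β) = ∫ x, Real.exp (β * x) ∂μ :=
    Real.exp_log (pos_int μ hexp β hβ)
  have hΛ2 : Real.exp (Lam μ (2 * β)) = ∫ x, Real.exp (2 * β * x) ∂μ :=
    Real.exp_log (pos_int μ hexp (2 * β) (by linarith))
  have i1 : Integrable (fun x => Real.exp (β * x - Lam μ β)) μ := by
    have : (fun x => Real.exp (β * x - Lam μ β)) =
        fun x => Real.exp (β * x) * Real.exp (- Lam μ β) := by
      funext x; rw [← Real.exp_add]; ring_nf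
    rw [this]
    exact (hexp β hβ).mul_const _
  have e1 : ∫ x, Real.exp (β * x - Lam μ β) ∂μ = 1 := by
    have : (fun x => Real.exp (β * x - Lam μ β)) =
        fun x => Real.exp (β * x) * Real.exp (- Lam μ β) := by
      funext x; rw [← Real.exp_add]; ring_nf
    rw [this, integral_mul_const, ← hΛ, ← Real.exp_add]
    simp
  have i2 : Integrable (fun x => Real.exp (β * x - Lam μ β) ^ 2) μ := by
    have : (fun x => Real.exp (β * x - Lam μ β) ^ 2) =
        fun x => Real.exp (2 * β * x) * Real.exp (- (2 * Lam μ β)) := by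
      funext x; rw [← Real.exp_add, ← Real.exp_nat_mul]; push_cast; ring_nf
    rw [this]
    exact (hexp (2 * β) (by linarith)).mul_const _
  have e2 : ∫ x, Real.exp (β * x - Lam μ β) ^ 2 ∂μ = sig2 μ β + 1 := by
    have : (fun x => Real.exp (β * x - Lam μ β) ^ 2) =
        fun x => Real.exp (2 * β * x) * Real.exp (- (2 * Lam μ β)) := by
      funext x; rw [← Real.exp_add, ← Real.exp_nat_mul]; push_cast; ring_nf
    rw [this, integral_mul_const, ← hΛ2, ← Real.exp_add]
    unfold sig2
    ring_nf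
  have hmeas1 : AEStronglyMeasurable (fun y : ℝ≥0 => (y : ℝ)) (wlaw μ β) :=
    (measurable_coe_nnreal_real).aestronglyMeasurable
  have hmeas2 : AEStronglyMeasurable (fun y : ℝ≥0 => (y : ℝ) ^ 2) (wlaw μ β) :=
    (measurable_coe_nnreal_real.pow_const 2).aestronglyMeasurable
  have hmeas3 : AEStronglyMeasurable (fun y : ℝ≥0 => ((y : ℝ) - 1) ^ 2) (wlaw μ β) :=
    ((measurable_coe_nnreal_real.sub_const 1).pow_const 2).aestronglyMeasurable
  have hwm := (wf_meas (Lam μ β) β).aemeasurable (μ := μ)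
  have hvar : ∫ y : ℝ≥0, ((y : ℝ) - 1) ^ 2 ∂(wlaw μ β) = sig2 μ β := by
    rw [wlaw_eq] at hmeas3 ⊢
    rw [integral_map hwm hmeas3]
    simp only [wf_coe]
    have : (fun x => (Real.exp (β * x - Lam μ β) - 1) ^ 2) =
        fun x => (Real.exp (β * x - Lam μ β) ^ 2 - 2 * Real.exp (β * x - Lam μ β)) + 1 := by
      funext x; ring
    have i3 : Integrable (fun x => Real.exp (β * x - Lam μ β) ^ 2
        - 2 * Real.exp (β * x - Lam μ β)) μ := i2.sub (i1.const_mul 2)
    rw [this, integral_add i3 (integrable_const 1),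
      integral_sub i2 (i1.const_mul 2), integral_const_mul, e1, e2]
    simp
    ring
  refine ⟨?_, ?_, ?_, ?_, ?_, hvar⟩
  · rw [wlaw_eq]
    exact Measure.isProbabilityMeasure_map hwm
  · rw [← hvar]
    exact integral_nonneg (fun y => sq_nonneg _)
  · rw [wlaw_eq] at hmeas1 ⊢
    rw [integrable_map_measure hmeas1 hwm]
    exact i1
  · rw [wlaw_eq] at hmeas2 ⊢
    rw [integrable_map_measure hmeas2 hwm]
    exact i2
  · rw [wlaw_eq] at hmeas1 ⊢
    rw [integral_map hwm hmeas1]
    exact e1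

/-- there is some mass strictly below zero -/
lemma exists_neg (h2 : Integrable (fun x : ℝ => x ^ 2) μ) (hm : ∫ x, x ∂μ = 0)
    (hv : ∫ x, x ^ 2 ∂μ = 1) : ∃ a : ℝ, 0 < a ∧ 0 < μ.real (Set.Iic (-a)) := by
  by_contra hcon
  push Not at hcon
  have h1 : Integrable (fun x : ℝ => x) μ := by
    have : MemLp (fun x : ℝ => x) 2 μ := by
      rw [memLp_two_iff_integrable_sq]
      · exact h2
      · exact measurable_id.aestronglyMeasurable
    exact this.integrable (by norm_num)
  have hz : ∀ n : ℕ, μ (Set.Iic (-(1 / ((n : ℝ) + 1)))) = 0 := by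
    intro n
    have h := hcon (1 / ((n : ℝ) + 1)) (by positivity)
    have h' : μ.real (Set.Iic (-(1 / ((n : ℝ) + 1)))) = 0 :=
      le_antisymm h measureReal_nonneg
    rwa [measureReal_eq_zero_iff] at h'
  have hneg : μ (Set.Iio 0) = 0 := by
    have hsub : Set.Iio (0 : ℝ) ⊆ ⋃ n : ℕ, Set.Iic (-(1 / ((n : ℝ) + 1))) := by
      intro x hx
      rw [Set.mem_Iio] at hx
      obtain ⟨n, hn⟩ := exists_nat_one_div_lt (show (0 : ℝ) < -x by linarith)
      rw [Set.mem_iUnion]
      exact ⟨n, by rw [Set.mem_Iic]; linarith⟩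
    exact measure_mono_null hsub (measure_iUnion_null hz)
  have hnn : ∀ᵐ x ∂μ, (0 : ℝ) ≤ x := by
    rw [ae_iff]
    convert hneg using 2
    ext x
    simp
  have hzero : (fun x : ℝ => x) =ᵐ[μ] 0 := by
    rw [← integral_eq_zero_iff_of_nonneg_ae hnn h1]
    exact hm
  have : ∫ x, x ^ 2 ∂μ = 0 := by
    rw [← integral_zero (α := ℝ) (G := ℝ) (μ := μ)]
    apply integral_congr_ae
    filter_upwards [hzero] with x hx
    have hx' : x = 0 := hx
    rw [hx']; norm_num
  rw [hv] at this
  norm_num at this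

lemma sig2_eq (hexp : ∀ β : ℝ, 0 ≤ β → Integrable (fun x => Real.exp (β * x)) μ) (β : ℝ)
    (hβ : 0 ≤ β) : Integrable (fun x => (Real.exp (β * x - Lam μ β) - 1) ^ 2) μ ∧
      ∫ x, (Real.exp (β * x - Lam μ β) - 1) ^ 2 ∂μ = sig2 μ β := by
  have W := wt_part μ hexp β hβ
  have hwm := (wf_meas (Lam μ β) β).aemeasurable (μ := μ)
  have hmeas3 : AEStronglyMeasurable (fun y : ℝ≥0 => ((y : ℝ) - 1) ^ 2) (wlaw μ β) :=
    ((measurable_coe_nnreal_real.sub_const 1).pow_const 2).aestronglyMeasurable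
  constructor
  · have := W.prob
    have : Integrable (fun y : ℝ≥0 => ((y : ℝ) - 1) ^ 2) (wlaw μ β) := by
      have e : (fun y : ℝ≥0 => ((y : ℝ) - 1) ^ 2) =
          fun y : ℝ≥0 => ((y : ℝ) ^ 2 - 2 * (y : ℝ)) + 1 := by
        funext y; ring
      rw [e]
      exact (W.int2.sub (W.int1.const_mul 2)).add (integrable_const 1)
    rw [wlaw_eq] at this hmeas3
    rw [integrable_map_measure hmeas3 hwm] at this
    exact this
  · rw [← W.var]
    rw [wlaw_eq] at hmeas3 ⊢
    rw [integral_map hwm hmeas3]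
    rfl

/-- the lower bound for the variance -/
lemma sig2_lower (h2 : Integrable (fun x : ℝ => x ^ 2) μ) (hm : ∫ x, x ∂μ = 0)
    (hexp : ∀ β : ℝ, 0 ≤ β → Integrable (fun x => Real.exp (β * x)) μ) (β : ℝ)
    (hβ : 0 ≤ β) (a : ℝ) (ha : 0 < a) :
    μ.real (Set.Iic (-a)) * (1 - Real.exp (-(β * a))) ^ 2 ≤ sig2 μ β := by
  obtain ⟨hi, he⟩ := sig2_eq μ hexp β hβ
  have hL := Lam_nonneg μ h2 hm hexp β hβ
  rw [← he]
  calc μ.real (Set.Iic (-a)) * (1 - Real.exp (-(β * a))) ^ 2
      = ∫ x in Set.Iic (-a), (1 - Real.exp (-(β * a))) ^ 2 ∂μ := by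
        rw [setIntegral_const]; simp
    _ ≤ ∫ x in Set.Iic (-a), (Real.exp (β * x - Lam μ β) - 1) ^ 2 ∂μ := by
        apply setIntegral_mono_on
        · exact (integrable_const _)
        · exact hi.integrableOn
        · exact measurableSet_Iic
        · intro x hx
          rw [Set.mem_Iic] at hx
          have h1 : Real.exp (β * x - Lam μ β) ≤ Real.exp (-(β * a)) := by
            apply Real.exp_le_exp.mpr
            have := mul_le_mul_of_nonneg_left hx hβ
            linarith
          have h3 : Real.exp (-(β * a)) ≤ 1 := by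
            rw [Real.exp_le_one_iff]
            have := mul_nonneg hβ ha.le
            linarith
          have h4 : 0 ≤ 1 - Real.exp (-(β * a)) := by linarith
          have h5 : 1 - Real.exp (-(β * a)) ≤ 1 - Real.exp (β * x - Lam μ β) := by linarith
          calc (1 - Real.exp (-(β * a))) ^ 2 ≤ (1 - Real.exp (β * x - Lam μ β)) ^ 2 :=
                pow_le_pow_left₀ h4 h5 2
            _ = (Real.exp (β * x - Lam μ β) - 1) ^ 2 := by ring
    _ ≤ ∫ x, (Real.exp (β * x - Lam μ β) - 1) ^ 2 ∂μ :=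
        setIntegral_le_integral hi (Filter.Eventually.of_forall (fun x => sq_nonneg _))

lemma exp_sub_one_le (t : ℝ) : Real.exp t - 1 ≤ t * Real.exp t := by
  have h := Real.add_one_le_exp (-t)
  have h2 : Real.exp t * (-t + 1) ≤ Real.exp t * Real.exp (-t) :=
    mul_le_mul_of_nonneg_left h (Real.exp_pos t).le
  rw [← Real.exp_add] at h2
  simp at h2
  nlinarith

/-- pointwise bound of the third power -/
lemma third_pointwise (L β x : ℝ) (hL : 0 ≤ L) (hβ : 0 ≤ β) (hβ1 : β ≤ 1) :
    |Real.exp (β * x - L) - 1| ^ 3 ≤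
      (Real.exp (β * x - L) - 1) ^ 2 + β ^ 3 * (6 * Real.exp (4 * x)) := by
  set w := Real.exp (β * x - L) with hw
  have hwp : 0 < w := Real.exp_pos _
  have hr : 0 ≤ β ^ 3 * (6 * Real.exp (4 * x)) := by positivity
  by_cases h : w ≤ 1
  · have h1 : |w - 1| = 1 - w := by rw [abs_of_nonpos (by linarith)]; ring
    rw [h1]
    have : (1 - w) ^ 3 ≤ (w - 1) ^ 2 := by
      have e : (w - 1) ^ 2 = (1 - w) ^ 2 := by ring
      rw [e]
      have h0 : 0 ≤ (1 - w) ^ 2 := sq_nonneg _
      nlinarith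
    linarith
  · push Not at h
    have h1 : |w - 1| = w - 1 := abs_of_pos (by linarith)
    rw [h1]
    have hpos : 0 < β * x - L := by
      by_contra hc
      push Not at hc
      have : w ≤ 1 := by rw [hw, Real.exp_le_one_iff]; exact hc
      linarith
    have hbx : 0 < β * x := by linarith
    have hx : 0 < x := by
      by_contra hc
      push Not at hc
      have := mul_nonpos_of_nonneg_of_nonpos hβ hc
      linarith
    have h2 : w - 1 ≤ β * x * Real.exp x := by
      have h3 : w ≤ Real.exp (β * x) := Real.exp_le_exp.mpr (by linarith)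
      have h4 := exp_sub_one_le (β * x)
      have h5 : Real.exp (β * x) ≤ Real.exp x := Real.exp_le_exp.mpr (by nlinarith)
      have h6 : β * x * Real.exp (β * x) ≤ β * x * Real.exp x :=
        mul_le_mul_of_nonneg_left h5 hbx.le
      linarith
    have h7 : (w - 1) ^ 3 ≤ (β * x * Real.exp x) ^ 3 :=
      pow_le_pow_left₀ (by linarith) h2 3
    have h8 : x ^ 3 ≤ 6 * Real.exp x := by
      have := Real.pow_div_factorial_le_exp x hx.le 3
      have e : ((Nat.factorial 3 : ℕ) : ℝ) = 6 := by norm_num [Nat.factorial]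
      rw [e] at this
      linarith [(div_le_iff₀ (by norm_num : (0 : ℝ) < 6)).mp this]
    have h9 : (β * x * Real.exp x) ^ 3 ≤ β ^ 3 * (6 * Real.exp (4 * x)) := by
      have e1 : (β * x * Real.exp x) ^ 3 = β ^ 3 * (x ^ 3 * Real.exp x ^ 3) := by ring
      have e2 : Real.exp (4 * x) = Real.exp x * Real.exp x ^ 3 := by
        rw [← Real.exp_nat_mul, ← Real.exp_add]; push_cast; ring_nf
      rw [e1, e2]
      apply mul_le_mul_of_nonneg_left _ (by positivity)
      have : x ^ 3 * Real.exp x ^ 3 ≤ 6 * Real.exp x * Real.exp x ^ 3 :=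
        mul_le_mul_of_nonneg_right h8 (by positivity)
      linarith
    have h10 : 0 ≤ (w - 1) ^ 2 := sq_nonneg _
    linarith

end

theorem targetB : TargetB := by
  intro μ _ h2 hm hv hexp
  refine ⟨fun β hβ => wt_part μ hexp β hβ, ?_⟩
  obtain ⟨a, ha, hp⟩ := exists_neg μ h2 hm hv
  set p := μ.real (Set.Iic (-a)) with hpdef
  have hea : Real.exp (-a) < 1 := by rw [Real.exp_lt_one_iff]; linarith
  set E4 := ∫ x, Real.exp (4 * x) ∂μ with hE4
  have hE4p : 0 < E4 := pos_int μ hexp 4 (by norm_num)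
  set K : ℝ := 6 * E4 * ((1 + a) ^ 2 / (p * a ^ 2)) with hK
  have hKp : 0 < K := by positivity
  refine ⟨1 + K, p * (1 - Real.exp (-a)) ^ 2 / 2, by linarith, ?_, ?_⟩
  · have : 0 < (1 - Real.exp (-a)) ^ 2 := by
      have : 0 < 1 - Real.exp (-a) := by linarith
      positivity
    positivity
  intro β hβ hs
  have hlow := sig2_lower μ h2 hm hexp β hβ a ha
  rw [← hpdef] at hlow
  have hβ1 : β ≤ 1 := by
    by_contra hc
    push Not at hc
    have h1 : Real.exp (-(β * a)) ≤ Real.exp (-a) := by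
      apply Real.exp_le_exp.mpr
      nlinarith
    have h3 : (1 - Real.exp (-a)) ^ 2 ≤ (1 - Real.exp (-(β * a))) ^ 2 :=
      pow_le_pow_left₀ (by linarith) (by linarith) 2
    have h4 : 0 < (1 - Real.exp (-a)) ^ 2 := by
      have : 0 < 1 - Real.exp (-a) := by linarith
      positivity
    have h5 : p * (1 - Real.exp (-a)) ^ 2 ≤ p * (1 - Real.exp (-(β * a))) ^ 2 :=
      mul_le_mul_of_nonneg_left h3 hp.le
    have h6 : 0 < p * (1 - Real.exp (-a)) ^ 2 := by positivity
    linarith
  -- lower bound by `β²`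
  have hlow2 : β ^ 2 * (p * a ^ 2) ≤ (1 + a) ^ 2 * sig2 μ β := by
    have h1 : β * a / (1 + a) ≤ 1 - Real.exp (-(β * a)) := by
      have hba : 0 ≤ β * a := by positivity
      have h1 : Real.exp (-(β * a)) ≤ 1 / (1 + β * a) := by
        rw [Real.exp_neg, ← one_div]
        apply one_div_le_one_div_of_le (by linarith)
        have := Real.add_one_le_exp (β * a)
        linarith
      have h2 : β * a / (1 + a) ≤ 1 - 1 / (1 + β * a) := by
        have e : 1 - 1 / (1 + β * a) = β * a / (1 + β * a) := by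
          field_simp; ring
        rw [e]
        apply div_le_div_of_nonneg_left hba (by linarith)
        nlinarith
      linarith
    have h2 : (β * a / (1 + a)) ^ 2 ≤ (1 - Real.exp (-(β * a))) ^ 2 :=
      pow_le_pow_left₀ (by positivity) h1 2
    have h3 : p * (β * a / (1 + a)) ^ 2 ≤ sig2 μ β :=
      le_trans (mul_le_mul_of_nonneg_left h2 hp.le) hlow
    have h4 : (1 + a) ^ 2 * (p * (β * a / (1 + a)) ^ 2) = β ^ 2 * (p * a ^ 2) := by
      field_simp
    rw [← h4]
    exact mul_le_mul_of_nonneg_left h3 (by positivity)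
  have hL := Lam_nonneg μ h2 hm hexp β hβ
  obtain ⟨hi, he⟩ := sig2_eq μ hexp β hβ
  have hdomI : Integrable (fun x => (Real.exp (β * x - Lam μ β) - 1) ^ 2
      + β ^ 3 * (6 * Real.exp (4 * x))) μ :=
    hi.add (((hexp 4 (by norm_num)).const_mul 6).const_mul (β ^ 3))
  have hmeasf : Measurable (fun x : ℝ => |Real.exp (β * x - Lam μ β) - 1| ^ 3) := by
    have : Measurable (fun x : ℝ => Real.exp (β * x - Lam μ β) - 1) := by fun_prop
    exact (measurable_norm.comp this).pow_const 3
  have hI3 : Integrable (fun x => |Real.exp (β * x - Lam μ β) - 1| ^ 3) μ := by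
    apply hdomI.mono' hmeasf.aestronglyMeasurable
    filter_upwards with x
    rw [Real.norm_of_nonneg (by positivity)]
    exact third_pointwise (Lam μ β) β x hL hβ hβ1
  have hwm := (wf_meas (Lam μ β) β).aemeasurable (μ := μ)
  have hmeas3 : AEStronglyMeasurable (fun y : ℝ≥0 => |(y : ℝ) - 1| ^ 3) (wlaw μ β) := by
    have : Measurable (fun y : ℝ≥0 => (y : ℝ) - 1) := measurable_coe_nnreal_real.sub_const 1
    exact ((measurable_norm.comp this).pow_const 3).aestronglyMeasurable
  constructor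
  · rw [wlaw_eq] at hmeas3 ⊢
    rw [integrable_map_measure hmeas3 hwm]
    exact hI3
  · rw [wlaw_eq] at hmeas3 ⊢
    rw [integral_map hwm hmeas3]
    simp only [wf_coe]
    calc ∫ x, |Real.exp (β * x - Lam μ β) - 1| ^ 3 ∂μ
        ≤ ∫ x, ((Real.exp (β * x - Lam μ β) - 1) ^ 2 + β ^ 3 * (6 * Real.exp (4 * x))) ∂μ :=
          integral_mono hI3 hdomI (fun x => third_pointwise (Lam μ β) β x hL hβ hβ1)
      _ = sig2 μ β + β ^ 3 * (6 * E4) := by
          rw [integral_add hi (((hexp 4 (by norm_num)).const_mul 6).const_mul (β ^ 3)), he,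
            integral_const_mul, integral_const_mul]
      _ ≤ sig2 μ β + K * sig2 μ β := by
          have h3 : β ^ 3 ≤ β ^ 2 := by nlinarith [sq_nonneg β]
          have h4 : β ^ 3 * (6 * E4) ≤ β ^ 2 * (6 * E4) :=
            mul_le_mul_of_nonneg_right h3 (by positivity)
          have h5 : β ^ 2 ≤ (1 + a) ^ 2 / (p * a ^ 2) * sig2 μ β := by
            rw [div_mul_eq_mul_div, le_div_iff₀ (by positivity)]
            exact hlow2
          have h6 : β ^ 2 * (6 * E4) ≤ (1 + a) ^ 2 / (p * a ^ 2) * sig2 μ β * (6 * E4) :=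
            mul_le_mul_of_nonneg_right h5 (by positivity)
          have h7 : (1 + a) ^ 2 / (p * a ^ 2) * sig2 μ β * (6 * E4) = K * sig2 μ β := by
            rw [hK]; ring
          linarith
      _ = (1 + K) * sig2 μ β := by ring

end Pool.Agent.H91.QC
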